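import Mathlib
import Pool.Agent.Lib.MP_23c465_al.Final

set_option autoImplicit false

namespace Pool.Agent.Results.MP_23c465_al.TriangularSystems

/-- Systems of equations over a free pro-`p` group in which every unknown but the last one is
subject, at every solution, to a nontrivial equation over the previous ones (no condition at all
for one unknown) are equivalent to finite subsystems. -/
theorem result :
    ∀ (p : ℕ), p.Prime →
    ∀ (X : Type) (F : Type) [Group F] [TopologicalSpace F] [IsTopologicalGroup F]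
      [CompactSpace F] [T2Space F] [TotallyDisconnectedSpace F] (ι : X → F),
    (∀ N : Subgroup F, IsOpen (N : Set F) → N.Normal → ∃ k : ℕ, N.index = p ^ k) →
    Filter.Tendsto ι Filter.cofinite (nhds 1) →
    (∀ (P : Type) [Group P] [Finite P], (∃ k : ℕ, Nat.card P = p ^ k) →
      ∀ f : X → P, Set.Finite {x : X | f x ≠ 1} →
        ∃! φ : F →* P, IsOpen (φ.ker : Set F) ∧ ∀ x : X, φ (ι x) = f x) →
    ∀ n : ℕ, 1 ≤ n → ∀ S : Set ((Fin n → F) → F),
      (∀ e ∈ S, ∀ U ∈ nhds (1 : F),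
        ∃ w ∈ Subgroup.closure
            (Set.range (fun c : F => fun _ : Fin n → F => c) ∪
              Set.range (fun i : Fin n => fun g : Fin n → F => g i)),
          ∀ g : Fin n → F, (w g)⁻¹ * e g ∈ U) →
      (∃ S1 : Finset ((Fin n → F) → F), (↑S1 : Set ((Fin n → F) → F)) ⊆ S ∧
        ∀ g : Fin n → F, (∀ e ∈ S1, e g = 1) → ∀ a : Fin n, (a : ℕ) + 1 < n →
          ∃ e ∈ S1, (∀ g₁ g₂ : Fin n → F, (∀ b ≤ a, g₁ b = g₂ b) → e g₁ = e g₂) ∧
            ∃ z : F, e (Function.update g a z) ≠ 1) →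
      ∃ S0 : Finset ((Fin n → F) → F), (↑S0 : Set ((Fin n → F) → F)) ⊆ S ∧
        {g : Fin n → F | ∀ e ∈ S, e g = 1} = {g : Fin n → F | ∀ e ∈ S0, e g = 1} := by
  intro p hp X F _ _ _ _ _ _ ι h1 h2 h3 n hn S hS htri
  haveI : Fact p.Prime := ⟨hp⟩
  obtain ⟨S1, hS1, htri⟩ := htri
  exact Pool.Agent.MP_23c465_al.triangular ⟨h1, h2, h3⟩ n hn S hS S1 hS1 htri

end Pool.Agent.Results.MP_23c465_al.TriangularSystems
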